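import Pool.Agent.Helper14.WK.StA

/-!
# Module KA1b of project WK: exponential decay of the Eichler primitives
-/

set_option autoImplicit false

open UpperHalfPlane CongruenceSubgroup
open scoped MatrixGroups

namespace Pool.Agent.Helper92.WK

open Pool.Agent.Helper14.WK
open Pool.Agent.Helper14.CV (G0)

private theorem norm_ex_KA1b (m : ℕ) (z : ℂ) :
    ‖Complex.exp (2 * Real.pi * Complex.I * m * z)‖ = Real.exp (-(2 * Real.pi * (m * z.im))) := by
  rw [Complex.norm_exp]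
  congr 1
  simp
  ring

private theorem decay_KA1b (h1 : SKA1) (N : ℕ) (hN : NeZero N) (k : ℤ) (f : CuspForm (G0 N) k)
    (i : ℕ) : ∃ S : ℝ, 0 ≤ S ∧ ∀ z : ℂ, 1 ≤ z.im →
      ‖FpK f i z‖ ≤ S * Real.exp (-2 * Real.pi * z.im) := by
  obtain ⟨h0, hs, -⟩ := h1 N hN k f Complex.I (by simp)
  have hn := (hs i).norm
  refine ⟨(∑' m : ℕ, ‖fcK f m / (2 * Real.pi * Complex.I * m) ^ i *
    Complex.exp (2 * Real.pi * Complex.I * m * Complex.I)‖) * Real.exp (2 * Real.pi), ?_,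
    fun z hz => ?_⟩
  · exact mul_nonneg (tsum_nonneg fun m => norm_nonneg _) (Real.exp_pos _).le
  have hz0 : 0 < z.im := lt_of_lt_of_le one_pos hz
  obtain ⟨-, hsz, -⟩ := h1 N hN k f z hz0
  have hnz := (hsz i).norm
  have hterm : ∀ m : ℕ, ‖fcK f m / (2 * Real.pi * Complex.I * m) ^ i *
      Complex.exp (2 * Real.pi * Complex.I * m * z)‖ ≤
      ‖fcK f m / (2 * Real.pi * Complex.I * m) ^ i *
        Complex.exp (2 * Real.pi * Complex.I * m * Complex.I)‖ *
        (Real.exp (2 * Real.pi) * Real.exp (-2 * Real.pi * z.im)) := by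
    intro m
    rcases Nat.eq_zero_or_pos m with hm | hm
    · rw [hm, h0]
      simp
    · rw [norm_mul, norm_mul, norm_ex_KA1b, norm_ex_KA1b, Complex.I_im,
        mul_assoc ‖fcK f m / (2 * Real.pi * Complex.I * m) ^ i‖]
      refine mul_le_mul_of_nonneg_left ?_ (norm_nonneg _)
      rw [← Real.exp_add, ← Real.exp_add]
      apply Real.exp_le_exp.2
      have h2 : (1 : ℝ) ≤ m := by exact_mod_cast hm
      have h3 : 0 ≤ ((m : ℝ) - 1) * (z.im - 1) :=
        mul_nonneg (by linarith) (by linarith)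
      have h4 : 0 ≤ Real.pi * (((m : ℝ) - 1) * (z.im - 1)) :=
        mul_nonneg Real.pi_pos.le h3
      nlinarith [h4]
  unfold FpK
  calc ‖∑' m : ℕ, fcK f m / (2 * Real.pi * Complex.I * m) ^ i *
        Complex.exp (2 * Real.pi * Complex.I * m * z)‖
      ≤ ∑' m : ℕ, ‖fcK f m / (2 * Real.pi * Complex.I * m) ^ i *
        Complex.exp (2 * Real.pi * Complex.I * m * z)‖ := norm_tsum_le_tsum_norm hnz
    _ ≤ ∑' m : ℕ, ‖fcK f m / (2 * Real.pi * Complex.I * m) ^ i *
        Complex.exp (2 * Real.pi * Complex.I * m * Complex.I)‖ *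
        (Real.exp (2 * Real.pi) * Real.exp (-2 * Real.pi * z.im)) :=
        hnz.tsum_le_tsum hterm (hn.mul_right _)
    _ = (∑' m : ℕ, ‖fcK f m / (2 * Real.pi * Complex.I * m) ^ i *
        Complex.exp (2 * Real.pi * Complex.I * m * Complex.I)‖) *
        (Real.exp (2 * Real.pi) * Real.exp (-2 * Real.pi * z.im)) := tsum_mul_right
    _ = _ := by ring

theorem hKA1b (h1 : SKA1) : SKA1b := by
  intro N hN k f j
  choose S hS0 hS using fun i => decay_KA1b h1 N hN k f i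
  refine ⟨∑ i ∈ Finset.range (j + 1), (j.descFactorial i : ℝ) * S (i + 1), fun z hz => ?_⟩
  have hz1 : (0 : ℝ) ≤ ‖z‖ := norm_nonneg z
  have he : 0 ≤ Real.exp (-2 * Real.pi * z.im) := (Real.exp_pos _).le
  unfold EK
  rw [Finset.sum_mul, Finset.sum_mul]
  refine (norm_sum_le _ _).trans (Finset.sum_le_sum fun i hi => ?_)
  have hij : i ≤ j := Nat.lt_succ_iff.1 (Finset.mem_range.1 hi)
  have hp : ‖z‖ ^ (j - i) ≤ (1 + ‖z‖) ^ j :=
    (pow_le_pow_left₀ hz1 (by linarith) (j - i)).trans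
      (pow_le_pow_right₀ (by linarith) (Nat.sub_le j i))
  have hn : ‖(-1 : ℂ) ^ i * (j.descFactorial i : ℂ) * z ^ (j - i) * FpK f (i + 1) z‖ =
      (j.descFactorial i : ℝ) * (‖z‖ ^ (j - i) * ‖FpK f (i + 1) z‖) := by
    rw [norm_mul, norm_mul, norm_mul, norm_pow, norm_pow, norm_neg, norm_one, one_pow, one_mul,
      Complex.norm_natCast, mul_assoc]
  rw [hn]
  have h3 : ‖z‖ ^ (j - i) * ‖FpK f (i + 1) z‖ ≤
      (1 + ‖z‖) ^ j * (S (i + 1) * Real.exp (-2 * Real.pi * z.im)) :=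
    mul_le_mul hp (hS (i + 1) z hz) (norm_nonneg _) (by positivity)
  calc (j.descFactorial i : ℝ) * (‖z‖ ^ (j - i) * ‖FpK f (i + 1) z‖)
      ≤ (j.descFactorial i : ℝ) *
        ((1 + ‖z‖) ^ j * (S (i + 1) * Real.exp (-2 * Real.pi * z.im))) :=
        mul_le_mul_of_nonneg_left h3 (Nat.cast_nonneg _)
    _ = (j.descFactorial i : ℝ) * S (i + 1) * (1 + ‖z‖) ^ j *
        Real.exp (-2 * Real.pi * z.im) := by ring

end Pool.Agent.Helper92.WK
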